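import Pool.Agent.MP_fcd29e_an.H31.Spec3

/-! Row DY1: the square function of a test function. -/

set_option autoImplicit false

open MeasureTheory Complex Set Filter Topology Metric Pool.Agent.MP_fcd29e_an.H81
  Pool.Agent.MP_fcd29e_an.H31
open scoped ContDiff ComplexConjugate ENNReal NNReal FourierTransform SchwartzMap

namespace Pool.Agent.MP_fcd29e_an.H71

namespace DY1A

theorem dy_pos (j : ℕ) : 0 < dy j := by unfold dy; positivity

theorem dy_le (j : ℕ) : dy j ≤ 1 := by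
  unfold dy
  exact inv_le_one_of_one_le₀ (one_le_pow₀ (by norm_num))

theorem xle (r t : ℝ) (hr : 0 ≤ r) (ht : 0 < t) (ht1 : t ≤ 1) :
    t ≤ (1 + r ^ 2) ^ (-(1 / 2) : ℝ) * (1 + t * r) := by
  have h0 : (0 : ℝ) < 1 + r ^ 2 := by positivity
  rw [Real.rpow_neg h0.le, ← Real.sqrt_eq_rpow, ← div_eq_inv_mul,
    le_div_iff₀ (Real.sqrt_pos.2 h0)]
  have h1 : √(1 + r ^ 2) ≤ 1 + r := Real.sqrt_le_iff.2 ⟨by positivity, by nlinarith⟩
  nlinarith

theorem term (s x r t C : ℝ) (M : ℕ) (hx : 0 < x) (hr : 0 ≤ r) (ht : 0 < t)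
    (h : t ≤ x * (1 + t * r)) :
    ENNReal.ofReal (t ^ (2 * s)) * ENNReal.ofReal ((C / (1 + t * r) ^ M) ^ 2) ≤
      ENNReal.ofReal (C ^ 2) * (if t ≤ x then ENNReal.ofReal (t ^ (2 * s)) else 0) +
      ENNReal.ofReal (C ^ 2 * x ^ (2 * M : ℝ)) *
        (if x ≤ t then ENNReal.ofReal (t ^ (-(2 * M - 2 * s))) else 0) := by
  have h1 : 1 ≤ 1 + t * r := by nlinarith
  have hs : 0 < t ^ (2 * s) := Real.rpow_pos_of_pos ht _
  rw [← ENNReal.ofReal_mul hs.le]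
  by_cases hc : t ≤ x
  · refine le_trans ?_ le_self_add
    rw [if_pos hc, ← ENNReal.ofReal_mul (sq_nonneg _), mul_comm]
    refine ENNReal.ofReal_le_ofReal (mul_le_mul_of_nonneg_right ?_ hs.le)
    rw [div_pow]
    exact div_le_self (sq_nonneg _) (one_le_pow₀ (one_le_pow₀ h1))
  · refine le_trans ?_ le_add_self
    rw [if_pos (not_le.1 hc).le, ← ENNReal.ofReal_mul (by positivity)]
    refine ENNReal.ofReal_le_ofReal ?_
    have e1 : t ^ (-(2 * M - 2 * s) : ℝ) = t ^ (2 * s) / t ^ (2 * M) := by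
      rw [neg_sub, Real.rpow_sub ht]
      norm_cast
    have e2 : x ^ (2 * M : ℝ) = x ^ (2 * M) := by norm_cast
    have h2 : t ^ (2 * M) ≤ x ^ (2 * M) * (1 + t * r) ^ (2 * M) := by
      rw [← mul_pow]
      exact pow_le_pow_left₀ ht.le h _
    rw [e1, e2, div_pow, ← pow_mul, mul_comm M 2]
    have h3 : 0 < (1 + t * r) ^ (2 * M) := by positivity
    have h4 : 0 < t ^ (2 * M) := by positivity
    rw [← mul_div_assoc, ← mul_div_assoc, div_le_div_iff₀ h3 h4]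
    have h5 : 0 ≤ t ^ (2 * s) * C ^ 2 := by positivity
    nlinarith [mul_le_mul_of_nonneg_left h2 h5]

theorem pw (hG : StmtGEO) (s C : ℝ) (M : ℕ) (hs : 0 < s) (hM : s < M) :
    ∃ C' : ℝ≥0, ∀ r : ℝ, 0 ≤ r →
      ∑' j, ENNReal.ofReal (dy j ^ (2 * s)) * ENNReal.ofReal ((C / (1 + dy j * r) ^ M) ^ 2) ≤
        C' * ENNReal.ofReal ((1 + r ^ 2) ^ (-s)) := by
  obtain ⟨C1, h1⟩ := hG (2 * s) (by linarith)
  obtain ⟨C2, h2⟩ := hG (2 * M - 2 * s) (by linarith)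
  refine ⟨(C ^ 2).toNNReal * (C1 + C2), fun r hr => ?_⟩
  have h0 : (0 : ℝ) < 1 + r ^ 2 := by positivity
  set x : ℝ := (1 + r ^ 2) ^ (-(1 / 2) : ℝ) with hxd
  have hx : 0 < x := Real.rpow_pos_of_pos h0 _
  have e0 : (1 + r ^ 2) ^ (-s) = x ^ (2 * s) := by
    rw [hxd, ← Real.rpow_mul h0.le]
    congr 1
    ring
  refine (ENNReal.tsum_le_tsum fun j =>
    term s x r (dy j) C M hx hr (dy_pos j) (xle r _ hr (dy_pos j) (dy_le j))).trans ?_
  rw [ENNReal.tsum_add, ENNReal.tsum_mul_left, ENNReal.tsum_mul_left]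
  refine (add_le_add (mul_le_mul_right (h1 x hx).1 _) (mul_le_mul_right (h2 x hx).2 _)).trans
    (le_of_eq ?_)
  have e1 : ENNReal.ofReal (x ^ (2 * M : ℝ)) * ENNReal.ofReal (x ^ (-(2 * M - 2 * s) : ℝ)) =
      ENNReal.ofReal (x ^ (2 * s)) := by
    rw [← ENNReal.ofReal_mul (Real.rpow_pos_of_pos hx _).le, ← Real.rpow_add hx]
    congr 2
    ring
  rw [e0, ENNReal.ofReal_mul (sq_nonneg C), ← e1]
  push_cast
  rw [e1]
  have e2 : ((C ^ 2).toNNReal : ℝ≥0∞) = ENNReal.ofReal (C ^ 2) := rfl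
  rw [e2, ← e1]
  ring

theorem tst_int {N : ℕ} {k : E N → ℂ} (h : Tst k) : Integrable k :=
  h.1.continuous.integrable_of_hasCompactSupport h.2

end DY1A

open DY1A

theorem dy1 (L : Lv2) : StmtDY1 := by
  intro N s hs k hk
  obtain ⟨M, hM⟩ := exists_nat_gt s
  obtain ⟨C, hC⟩ := (L.fa N k hk).2.2.2.2.1 M
  obtain ⟨C', hC'⟩ := pw L.geo s C M hs hM
  refine ⟨C', fun ψ hψ => ?_⟩
  have hF : Continuous (𝓕 ψ) := (L.fb N ψ (tst_int hψ)).1
  have hm : ∀ j, Measurable fun ξ : E N => ENNReal.ofReal (dy j ^ (2 * s)) *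
      ENNReal.ofReal ((C / (1 + dy j * ‖ξ‖) ^ M) ^ 2) * ENNReal.ofReal (‖𝓕 ψ ξ‖ ^ 2) := by
    intro j
    have := hF.measurable
    fun_prop
  have h1 : ∀ j, ENNReal.ofReal (dy j ^ (2 * s)) * N2 (Cv (Sc (dy j) k) ψ) ≤
      ∫⁻ ξ : E N, ENNReal.ofReal (dy j ^ (2 * s)) *
        ENNReal.ofReal ((C / (1 + dy j * ‖ξ‖) ^ M) ^ 2) * ENNReal.ofReal (‖𝓕 ψ ξ‖ ^ 2) := by
    intro j
    have hS : Tst (Sc (dy j) k) := (L.fa N k hk).2.2.2.2.2.2.1 _ (dy_pos j)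
    obtain ⟨a1, a2, -⟩ := (L.fb N _ (tst_int hS)).2.2.2.2.2 hS.2 ψ hψ
    have a3 := ((L.fb N k (tst_int hk)).2.2.2.1 _ (dy_pos j)).2.2.2
    rw [← (L.fa N _ a1).1, N2, ← lintegral_const_mul' _ _ ENNReal.ofReal_ne_top]
    refine lintegral_mono fun ξ => ?_
    rw [mul_assoc, ← ENNReal.ofReal_mul (sq_nonneg _), ← mul_pow, a2, a3, norm_mul]
    refine mul_le_mul_right (ENNReal.ofReal_le_ofReal ?_) _
    refine pow_le_pow_left₀ (by positivity) (mul_le_mul_of_nonneg_right ?_ (norm_nonneg _)) 2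
    have := hC (dy j • ξ)
    rwa [norm_smul, Real.norm_of_nonneg (dy_pos j).le] at this
  refine (ENNReal.tsum_le_tsum h1).trans ?_
  rw [← lintegral_tsum fun j => (hm j).aemeasurable, FN,
    ← lintegral_const_mul' _ _ ENNReal.coe_ne_top]
  refine lintegral_mono fun ξ => ?_
  rw [ENNReal.tsum_mul_right, ENNReal.ofReal_mul (Real.rpow_nonneg (by positivity) _),
    ← mul_assoc]
  exact mul_le_mul_left (hC' _ (norm_nonneg ξ)) _

end Pool.Agent.MP_fcd29e_an.H71
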